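import Mathlib
import Pool.Agent.Work.MP_a5099b_nt.Defs
import Pool.Agent.Work.MP_a5099b_nt.B.PhiX
import Pool.Agent.Work.MP_a5099b_nt.B.Kro2

/-!
# Module L.Cyc: the cycle lemma

Near a regular integer `n` at most one neighbour of `x` (root of `Φ_q(x, Y)`) is as close to `n` as `x`; so no finite
set of points near `n` is such that every point has two neighbours in it.
-/

set_option autoImplicit false

namespace Pool.Agent.SS.LB

open Polynomial

theorem der_kron {q : ℕ} (hq : q.Prime) {A : Type*} [CommRing A] (x y : A) :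
    ∃ r : A, (derivative (PhiAt q x)).eval y = -(x - y ^ q) + q * r := by
  have h : PhiAt q x = (C (x ^ q) - X) * (C x - X ^ q) +
      C (q : A) * (GG q).map (aeval x : ℤ[X] →ₐ[ℤ] A).toRingHom := by
    rw [PhiAt, GG_spec hq]
    simp [Kron]
  rw [h]
  refine ⟨-(x ^ q - y) * y ^ (q - 1) +
    (derivative ((GG q).map (aeval x : ℤ[X] →ₐ[ℤ] A).toRingHom)).eval y, ?_⟩
  simp only [derivative_add, derivative_mul, derivative_sub, derivative_C, derivative_X,
    derivative_X_pow, eval_add, eval_mul, eval_sub, eval_C, eval_X, eval_pow, eval_zero,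
    eval_one, eval_natCast, map_natCast, derivative_natCast]
  ring

variable {F : Type*} [Field F] {q : ℕ} (O : ValuationSubring F)

private theorem v_int (n : ℤ) : O.valuation (n : F) ≤ 1 :=
  (O.valuation_le_one_iff _).2 (intCast_mem O n)

private theorem v_nat (n : ℕ) : O.valuation (n : F) ≤ 1 :=
  (O.valuation_le_one_iff _).2 (natCast_mem O n)

private theorem fermat (hq : q.Prime) (n : ℤ) : ∃ c : ℤ, (n : F) ^ q - n = q * c := by
  have : Fact q.Prime := ⟨hq⟩
  have h : ((n ^ q - n : ℤ) : ZMod q) = 0 := by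
    push_cast
    rw [ZMod.pow_card, sub_self]
  rw [ZMod.intCast_zmod_eq_zero_iff_dvd] at h
  obtain ⟨c, hc⟩ := h
  have h1 := congrArg (Int.cast : ℤ → F) hc
  push_cast at h1
  exact ⟨c, h1⟩

/-- `y ^ q - n` is `(y - n) ^ q` up to a multiple of `q` -/
private theorem pow_sub (hq : q.Prime) (n : ℤ) {y : F} (hy : O.valuation y ≤ 1) :
    O.valuation (y ^ q - n) ≤ max (O.valuation (y - n) ^ q) (O.valuation (q : F)) := by
  have hyO : y ∈ O := (O.valuation_le_one_iff _).1 hy
  obtain ⟨c, hc⟩ := fermat (F := F) hq n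
  obtain ⟨r, hr⟩ := exists_add_pow_prime_eq hq ((⟨y, hyO⟩ : O) - (n : O)) (n : O)
  have hr' := congrArg (fun z : O => (z : F)) hr
  simp only [sub_add_cancel] at hr'
  push_cast at hr'
  have e : y ^ q - n = (y - n) ^ q + q * (c + (y - n) * n * (r : F)) := by
    linear_combination hr' + hc
  have hle : O.valuation ((c : F) + (y - n) * n * (r : F)) ≤ 1 := by
    rw [O.valuation_le_one_iff]
    exact add_mem (intCast_mem O c) (mul_mem (mul_mem (sub_mem hyO (intCast_mem O n))
      (intCast_mem O n)) r.2)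
  rw [e]
  refine (O.valuation.map_add _ _).trans (max_le_max ?_ ?_)
  · rw [map_pow]
  · rw [map_mul]
    exact mul_le_of_le_one_right' hle

private theorem v_le_one_of_near {n : ℤ} {x : F} (hx : O.valuation (x - n) < 1) :
    O.valuation x ≤ 1 := by
  have e : x = (x - n) + n := by ring
  rw [e]
  exact (O.valuation.map_add _ _).trans (max_le hx.le (v_int O n))

private theorem root_int (hq : q.Prime) {x y : F} (hx : O.valuation x ≤ 1)
    (hy : (PhiAt q x).eval y = 0) : O.valuation y ≤ 1 := by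
  rw [O.valuation_le_one_iff] at hx ⊢
  have e : PhiAt q x = (PhiAt q (⟨x, hx⟩ : O)).map (algebraMap O F) := by
    rw [PhiAt_map]
    rfl
  have hint : IsIntegral O y := by
    refine ⟨PhiAt q (⟨x, hx⟩ : O), PhiAt_monic hq _, ?_⟩
    rw [← eval_map, ← e]
    exact hy
  obtain ⟨z, hz⟩ := (IsIntegrallyClosed.isIntegral_iff (R := O) (K := F)).1 hint
  rw [← hz]
  exact z.2

variable {O}

private theorem gg_unit {n : ℤ} (hG : O.valuation (GGAt q (n : F) (n : F)) = 1)
    {x y : F} (hx : O.valuation (x - n) < 1) (hy : O.valuation (y - n) < 1) :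
    O.valuation (GGAt q x y) = 1 := by
  have hxO : x ∈ O := (O.valuation_le_one_iff _).1 (v_le_one_of_near O hx)
  have hyO : y ∈ O := (O.valuation_le_one_iff _).1 (v_le_one_of_near O hy)
  set f := Ideal.Quotient.mk (IsLocalRing.maximalIdeal O) with hf
  have hf0 : ∀ z : O, f z = 0 ↔ O.valuation (z : F) < 1 := by
    intro z
    rw [hf, Ideal.Quotient.eq_zero_iff_mem, O.valuation_lt_one_iff]
  have e1 : f (⟨x, hxO⟩ : O) = f (n : O) := by
    rw [← sub_eq_zero, ← map_sub, hf0]
    simpa using hx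
  have e2 : f (⟨y, hyO⟩ : O) = f (n : O) := by
    rw [← sub_eq_zero, ← map_sub, hf0]
    simpa using hy
  have h1 : f (GGAt q (⟨x, hxO⟩ : O) (⟨y, hyO⟩ : O)) = f (GGAt q (n : O) (n : O)) := by
    rw [GGAt_map, GGAt_map, e1, e2]
  have h2 : ((GGAt q (n : O) (n : O) : O) : F) = GGAt q (n : F) (n : F) := by
    have := GGAt_map (n := q) (algebraMap O F) (n : O) (n : O)
    simpa using this
  have h3 : ((GGAt q (⟨x, hxO⟩ : O) (⟨y, hyO⟩ : O) : O) : F) = GGAt q x y := by
    have := GGAt_map (n := q) (algebraMap O F) (⟨x, hxO⟩ : O) (⟨y, hyO⟩ : O)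
    simpa using this
  have h4 : f (GGAt q (n : O) (n : O)) ≠ 0 := by
    rw [Ne, hf0, h2, hG]
    exact lt_irrefl _
  rw [← h1, Ne, hf0, h3] at h4
  have h5 : O.valuation (GGAt q x y) ≤ 1 := by
    rw [← h3]
    exact (O.valuation_le_one_iff _).2 (SetLike.coe_mem _)
  exact le_antisymm h5 (not_lt.1 h4)

theorem root_near (hq : q.Prime) (hvq : O.valuation (q : F) < 1) {n : ℤ} {x y : F}
    (hx : O.valuation (x - n) < 1) (hy : (PhiAt q x).eval y = 0) :
    O.valuation (y - n) < 1 := by
  have hx1 := v_le_one_of_near O hx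
  have hy1 := root_int O hq hx1 hy
  have hxO : x ∈ O := (O.valuation_le_one_iff _).1 hx1
  have hyO : y ∈ O := (O.valuation_le_one_iff _).1 hy1
  have hq2 : q ≠ 0 := hq.ne_zero
  have hxq : O.valuation (x ^ q - n) < 1 := by
    refine (pow_sub O hq n hx1).trans_lt (max_lt (pow_lt_one₀ zero_le hx hq2) hvq)
  have hk := kron_at hq x y
  rw [hy] at hk
  have hg : O.valuation (GGAt q x y) ≤ 1 := by
    have := GGAt_map (n := q) (algebraMap O F) (⟨x, hxO⟩ : O) (⟨y, hyO⟩ : O)
    have h3 : ((GGAt q (⟨x, hxO⟩ : O) (⟨y, hyO⟩ : O) : O) : F) = GGAt q x y := by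
      simpa using this
    rw [← h3]
    exact (O.valuation_le_one_iff _).2 (SetLike.coe_mem _)
  have hprod : O.valuation ((x ^ q - y) * (x - y ^ q)) < 1 := by
    have e : (x ^ q - y) * (x - y ^ q) = -(q * GGAt q x y) := by linear_combination -hk
    rw [e, Valuation.map_neg, map_mul]
    exact (mul_le_of_le_one_right' hg).trans_lt hvq
  rw [map_mul] at hprod
  by_cases hc : O.valuation (x ^ q - y) < 1
  · have e : y - n = (x ^ q - n) - (x ^ q - y) := by ring
    rw [e]
    exact (O.valuation.map_sub _ _).trans_lt (max_lt hxq hc)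
  · have hc1 : O.valuation (x - y ^ q) < 1 := by
      by_contra hcc
      have h1 := not_lt.1 hc
      have h2 := not_lt.1 hcc
      have h3 : 1 ≤ O.valuation (x ^ q - y) * O.valuation (x - y ^ q) := one_le_mul h1 h2
      exact absurd hprod (not_lt.2 h3)
    have hyq : O.valuation (y ^ q - n) < 1 := by
      have e : y ^ q - n = (x - n) - (x - y ^ q) := by ring
      rw [e]
      exact (O.valuation.map_sub _ _).trans_lt (max_lt hx hc1)
    obtain ⟨c, hc⟩ := fermat (F := F) hq n
    obtain ⟨r, hr⟩ := exists_add_pow_prime_eq hq ((⟨y, hyO⟩ : O) - (n : O)) (n : O)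
    have hr' := congrArg (fun z : O => (z : F)) hr
    simp only [sub_add_cancel] at hr'
    push_cast at hr'
    have e : (y - n) ^ q = (y ^ q - n) - q * (c + (y - n) * n * (r : F)) := by
      linear_combination -hr' - hc
    have hle : O.valuation ((c : F) + (y - n) * n * (r : F)) ≤ 1 := by
      rw [O.valuation_le_one_iff]
      exact add_mem (intCast_mem O c) (mul_mem (mul_mem (sub_mem hyO (intCast_mem O n))
        (intCast_mem O n)) r.2)
    have h1 : O.valuation ((y - n) ^ q) < 1 := by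
      rw [e]
      refine (O.valuation.map_sub _ _).trans_lt (max_lt hyq ?_)
      rw [map_mul]
      exact (mul_le_of_le_one_right' hle).trans_lt hvq
    rw [map_pow] at h1
    exact (pow_lt_one_iff_of_nonneg zero_le hq2).1 h1

/-- Near a regular integer at most one neighbour of `x` is as close as `x`. -/
theorem no_two (hq : q.Prime) (hq0 : (q : F) ≠ 0) (hvq : O.valuation (q : F) < 1) {n : ℤ}
    (hG : O.valuation (GGAt q (n : F) (n : F)) = 1) {x y₁ y₂ : F} {s : Multiset F}
    (hs : PhiAt q x = ((y₁ ::ₘ y₂ ::ₘ s).map fun y => X - C y).prod)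
    (hx : O.valuation (x - n) < 1) (h1 : O.valuation (y₁ - n) ≤ O.valuation (x - n))
    (h2 : O.valuation (y₂ - n) ≤ O.valuation (x - n)) : False := by
  have hroot : ∀ y ∈ (y₁ ::ₘ y₂ ::ₘ s), (PhiAt q x).eval y = 0 := by
    intro y hy
    rw [hs, eval_multiset_prod, Multiset.map_map, Multiset.prod_eq_zero_iff, Multiset.mem_map]
    exact ⟨y, hy, by simp⟩
  have hnear : ∀ y ∈ (y₁ ::ₘ y₂ ::ₘ s), O.valuation (y - n) < 1 := fun y hy =>
    root_near hq hvq hx (hroot y hy)
  have hx1 := v_le_one_of_near O hx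
  have hr1 := hroot y₁ (Multiset.mem_cons_self _ _)
  have hn1 := hnear y₁ (Multiset.mem_cons_self _ _)
  have hy1 := v_le_one_of_near O hn1
  have hk := kron_at hq x y₁
  rw [hr1] at hk
  have hg := gg_unit hG hx hn1
  have hprod : O.valuation (x ^ q - y₁) * O.valuation (x - y₁ ^ q) = O.valuation (q : F) := by
    rw [← map_mul]
    have e : (x ^ q - y₁) * (x - y₁ ^ q) = -(q * GGAt q x y₁) := by linear_combination -hk
    rw [e, Valuation.map_neg, map_mul, hg, mul_one]
  have hvq0 : O.valuation (q : F) ≠ 0 := (Valuation.ne_zero_iff _).2 hq0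
  have hq2 : q ≠ 0 := hq.ne_zero
  set h := O.valuation (x - n) with hh
  have hyq := pow_sub O hq n hy1
  -- the valuation of `q` is smaller
  have hlt : O.valuation (q : F) < h := by
    by_contra hc
    have hc := not_lt.1 hc
    have h3 : O.valuation (x - y₁ ^ q) ≤ O.valuation (q : F) := by
      have e : x - y₁ ^ q = (x - n) - (y₁ ^ q - n) := by ring
      rw [e]
      refine (O.valuation.map_sub _ _).trans (max_le hc (hyq.trans (max_le ?_ le_rfl)))
      calc O.valuation (y₁ - n) ^ q ≤ O.valuation (y₁ - n) :=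
            pow_le_of_le_one zero_le hn1.le hq2
        _ ≤ h := h1
        _ ≤ _ := hc
    have h4 : O.valuation (x ^ q - y₁) < 1 := by
      have e : x ^ q - y₁ = (x ^ q - n) - (y₁ - n) := by ring
      rw [e]
      refine (O.valuation.map_sub _ _).trans_lt (max_lt ?_ hn1)
      exact (pow_sub O hq n hx1).trans_lt (max_lt (pow_lt_one₀ zero_le hx hq2) hvq)
    have h5 : O.valuation (x ^ q - y₁) * O.valuation (x - y₁ ^ q) < O.valuation (q : F) := by
      calc O.valuation (x ^ q - y₁) * O.valuation (x - y₁ ^ q)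
          ≤ O.valuation (x ^ q - y₁) * O.valuation (q : F) := mul_le_mul_right h3 _
        _ < 1 * O.valuation (q : F) := by
            exact mul_lt_mul_of_pos_right h4 (zero_lt_iff.2 hvq0)
        _ = _ := one_mul _
    rw [hprod] at h5
    exact lt_irrefl _ h5
  have hpos : 0 < h := lt_of_le_of_lt zero_le hlt
  have hyq' : O.valuation (y₁ ^ q - n) < h := by
    refine hyq.trans_lt (max_lt ?_ hlt)
    calc O.valuation (y₁ - n) ^ q ≤ h ^ q := pow_le_pow_left₀ zero_le h1 q
      _ < h := by
        conv_rhs => rw [← pow_one h]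
        exact pow_lt_pow_right_of_lt_one₀ hpos hx hq.one_lt
  have hxy : O.valuation (x - y₁ ^ q) = h := by
    have e : x - y₁ ^ q = (x - n) - (y₁ ^ q - n) := by ring
    rw [e, hh]
    exact Valuation.map_sub_eq_of_lt_left _ hyq'
  -- the derivative
  have hxO : x ∈ O := (O.valuation_le_one_iff _).1 hx1
  have hyO : y₁ ∈ O := (O.valuation_le_one_iff _).1 hy1
  obtain ⟨r, hr⟩ := der_kron hq (⟨x, hxO⟩ : O) (⟨y₁, hyO⟩ : O)
  have hder : (derivative (PhiAt q x)).eval y₁ = -(x - y₁ ^ q) + q * (r : F) := by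
    have e : PhiAt q x = (PhiAt q (⟨x, hxO⟩ : O)).map (algebraMap O F) := by
      rw [PhiAt_map]
      rfl
    have e3 : (derivative (PhiAt q x)).eval y₁ =
        algebraMap O F ((derivative (PhiAt q (⟨x, hxO⟩ : O))).eval (⟨y₁, hyO⟩ : O)) := by
      rw [e, derivative_map, eval_map]
      exact eval₂_at_apply (algebraMap O F) (⟨y₁, hyO⟩ : O)
    rw [e3, hr]
    simp
  have hder1 : O.valuation ((derivative (PhiAt q x)).eval y₁) = h := by
    rw [hder]
    have h3 : O.valuation ((q : F) * (r : F)) < O.valuation (-(x - y₁ ^ q)) := by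
      rw [Valuation.map_neg, hxy, map_mul]
      exact (mul_le_of_le_one_right' ((O.valuation_le_one_iff _).2 r.2)).trans_lt hlt
    rw [Valuation.map_add_eq_of_lt_left _ h3, Valuation.map_neg, hxy]
  -- the product formula
  have hcard : Multiset.card (y₁ ::ₘ y₂ ::ₘ s) = q + 1 := by
    rw [← PhiAt_natDegree hq x, hs, natDegree_multiset_prod_X_sub_C_eq_card]
  have hder2 : (derivative (PhiAt q x)).eval y₁ = (y₁ - y₂) * (s.map fun y => y₁ - y).prod := by
    rw [hs, Multiset.map_cons, Multiset.prod_cons, Multiset.map_cons, Multiset.prod_cons,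
      derivative_mul]
    simp [eval_multiset_prod, Multiset.map_map]
  obtain ⟨y₃, s', rfl⟩ : ∃ y₃ s', s = y₃ ::ₘ s' := by
    classical
    have : 0 < Multiset.card s := by
      simp only [Multiset.card_cons] at hcard
      have := hq.two_le
      omega
    obtain ⟨a, ha⟩ := Multiset.card_pos_iff_exists_mem.1 this
    exact ⟨a, _, (Multiset.cons_erase ha).symm⟩
  have hdiff : ∀ y ∈ (y₁ ::ₘ y₂ ::ₘ y₃ ::ₘ s'), O.valuation (y₁ - y) < 1 := by
    intro y hy
    have e : y₁ - y = (y₁ - n) - (y - n) := by ring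
    rw [e]
    exact (O.valuation.map_sub _ _).trans_lt (max_lt hn1 (hnear y hy))
  have h12 : O.valuation (y₁ - y₂) ≤ h := by
    have e : y₁ - y₂ = (y₁ - n) - (y₂ - n) := by ring
    rw [e]
    exact (O.valuation.map_sub _ _).trans (max_le h1 h2)
  have h13 : O.valuation (y₁ - y₃) < 1 := hdiff y₃ (by simp)
  have hrest : O.valuation (s'.map fun y => y₁ - y).prod ≤ 1 := by
    have hall : ∀ y ∈ s', O.valuation (y₁ - y) ≤ 1 := fun y hy => (hdiff y (by simp [hy])).le
    clear hs hroot hnear hcard hder2 hdiff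
    induction s' using Multiset.induction with
    | empty => simp
    | cons a s' ih =>
      rw [Multiset.map_cons, Multiset.prod_cons, map_mul]
      exact mul_le_one' (hall a (Multiset.mem_cons_self _ _))
        (ih fun y hy => hall y (Multiset.mem_cons_of_mem hy))
  rw [hder2, Multiset.map_cons, Multiset.prod_cons, map_mul, map_mul] at hder1
  have hfin : O.valuation (y₁ - y₂) * (O.valuation (y₁ - y₃) *
      O.valuation (s'.map fun y => y₁ - y).prod) < h := by
    calc O.valuation (y₁ - y₂) * (O.valuation (y₁ - y₃) *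
          O.valuation (s'.map fun y => y₁ - y).prod)
        ≤ h * (O.valuation (y₁ - y₃) * 1) := by
          gcongr
      _ = h * O.valuation (y₁ - y₃) := by rw [mul_one]
      _ < h * 1 := mul_lt_mul_of_pos_left h13 hpos
      _ = h := mul_one h
  rw [hder1] at hfin
  exact lt_irrefl _ hfin

/-- The cycle lemma. -/
theorem cycle (hq : q.Prime) (hq0 : (q : F) ≠ 0) (hvq : O.valuation (q : F) < 1) {n : ℤ}
    (hG : O.valuation (GGAt q (n : F) (n : F)) = 1) (V : Finset F)
    (hV : ∀ x ∈ V, O.valuation (x - n) < 1)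
    (h2 : ∀ x ∈ V, ∃ y₁ ∈ V, ∃ y₂ ∈ V, ∃ s : Multiset F,
      PhiAt q x = ((y₁ ::ₘ y₂ ::ₘ s).map fun y => X - C y).prod) : V = ∅ := by
  by_contra hne
  obtain ⟨x, hx, hmax⟩ := V.exists_max_image (fun x => O.valuation (x - n))
    (Finset.nonempty_iff_ne_empty.2 hne)
  obtain ⟨y₁, hy1, y₂, hy2, s, hs⟩ := h2 x hx
  exact no_two hq hq0 hvq hG hs (hV x hx) (hmax y₁ hy1) (hmax y₂ hy2)

end Pool.Agent.SS.LB
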